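import Pool.Agent.J4.H66.N1.PosMain
import Pool.Agent.J4.H66.N1.NormData
import Pool.Agent.J4.H66.N1.ExcMain
import Pool.Agent.Y716.D.Main
import Pool.Agent.J4.H66.NT.NormT

/-!
# The Hasse principle for 100% of the systems `N_{K_i/ℚ}(z_i) = c_i F_i(x)` over projective spaces

Let `n ≥ 1`, `s ≥ 1`, let `K_1, …, K_s` be ANY number fields, `c_1, …, c_s` non-zero rational numbers and
let `d_1, …, d_s ≥ 2` be ANY degrees. For forms `F_1, …, F_s` of degrees `d_1, …, d_s` in `x_0, …, x_n`
with integral coefficients let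

  `U_F : N_{K_i/ℚ}(z_i) = c_i F_i(x) ≠ 0`, `i = 1, …, s`,

a smooth, geometrically rational variety, fibred over an open subset of `ℙⁿ` in torsors under the torus
`N_{K_i/ℚ}(z_i) = λ ^ d_i` (an extension of `𝔾_m` by the product of the norm tori), with degenerate fibres
over the `s` hypersurfaces `F_i = 0`. For `n = 1` these are fibrations over the projective line with
`d_1 + … + d_s` degenerate geometric fibres, the classical case. There is no relation between the degrees
`d_i`, the degrees of the fields, `s` and `n`.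

For a positive proportion of the systems `F`, ordered by the maximum `H` of the absolute values of the
coefficients, `U_F` has a rational point, and among the `F` for which `U_F` has points over the real numbers
and over all the `p`-adic fields the proportion of those for which `U_F` has a rational point tends to `1`.

Proof (`Pool/Agent/J4/H66/N1`, `Pool/Agent/J4/H66/NF`). Second moment over `2 s`-parameter families of
systems. Given local data of `F` at the primes up to `w` and at infinity, choose integral vectors `e₀`, `f₁`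
such that `x_t = e₀ + L t f₁` is close to the local points and such that their `2 × 2` minor `Δ` is composed
of primes up to `w`; for linear forms `ℓ_0`, `ℓ_1` dual to these vectors the forms
`F_i + L ℓ_0 ^ (d_i - 1) (u ℓ_0 + v ℓ_1)` have at `x_t` the values `F_i(x_t) + L Δ ^ d_i (u + L v t)`. The
number of representations of an integer as the norm of an integer of `K_i` in a box `(1 + V y) b + L z` has
constant mean value on long progressions. The correlations for `t ≠ t'` are controlled by the numbers of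
pairs of integers of `K_i` modulo `g` with the same norm, where `g` is the part of `t - t'` which is composed
of primes `> w`. For large primes `p` the norm is surjective modulo `p`, so that there are at most
`(1 + C / p) p ^ (2 q - 1)` pairs modulo `p`, `q = [K_i : ℚ]`, and the mean value of the product of the
factors `1 + C / p` over `t' ≠ t` is close to `1` if `w` is large. For `t` in an interval whose length is a
small power of `H` the sum of the products of the numbers of representations is therefore positive for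
all but a small proportion of the parameters. Averaging over all shifts gives the theorem. Pieces of the
Lean proof were written by helper10 (`Surj`), helper40 (`Vec`), helper46 (`Crt`), helper48 (`M2`), helper61
(`Sum`) and helper73 (`Cnt`).
-/

set_option autoImplicit false

namespace Pool.Agent.Results.MP_e426f4_ag.NormFibrations

open Filter Topology TensorProduct Module

/-- The systems of `s` forms of degrees `d i` in `n + 1` variables whose coefficients are integers of
absolute value at most `H`. -/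
def Systems (n : ℕ) {s : ℕ} (d : Fin s → ℕ) (H : ℕ) :
    Set (Fin s → MvPolynomial (Fin (n + 1)) ℤ) :=
  {F | ∀ i, (F i).IsHomogeneous (d i) ∧ ∀ a, |(F i).coeff a| ≤ (H : ℤ)}

variable {n s : ℕ} (K : Fin s → Type) [∀ i, Field (K i)] [∀ i, NumberField (K i)]

/-- The variety `N_{K_i/ℚ}(z_i) = c_i F_i(x) ≠ 0` has a point over the field `k`; the coordinates `z_i` form
an element of `k ⊗ K_i`. -/
def HasPoint (c : Fin s → ℚ) (F : Fin s → MvPolynomial (Fin (n + 1)) ℤ)
    (k : Type) [Field k] [Algebra ℚ k] : Prop :=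
  ∃ x : Fin (n + 1) → k, ∀ i, MvPolynomial.aeval x (F i) ≠ 0 ∧
    ∃ z : k ⊗[ℚ] (K i), Algebra.norm k z = algebraMap ℚ k (c i) * MvPolynomial.aeval x (F i)

/-- The variety has points over the real numbers and over all the `p`-adic fields. -/
def LocallySoluble (c : Fin s → ℚ) (F : Fin s → MvPolynomial (Fin (n + 1)) ℤ) : Prop :=
  HasPoint K c F ℝ ∧ ∀ (p : ℕ) [Fact p.Prime], HasPoint K c F ℚ_[p]

open Pool.Agent.Y716.Q Pool.Agent.Y716.C Pool.Agent.R465.CV Pool.Agent.J4.H66.NF in
/-- **The Hasse principle for 100% of the systems of norm equations in values of random forms in at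
least two variables.** -/
theorem result (hn : 1 ≤ n) (hs : 1 ≤ s) (d : Fin s → ℕ) (hd : ∀ i, 2 ≤ d i)
    (c : Fin s → ℚ) (hc : ∀ i, c i ≠ 0) :
    (∃ c₀ : ℝ, 0 < c₀ ∧ ∀ᶠ H : ℕ in atTop, c₀ * ((Systems n d H).ncard : ℝ) ≤
      (({F | F ∈ Systems n d H ∧ HasPoint K c F ℚ} : Set _).ncard : ℝ)) ∧
    Tendsto (fun H : ℕ =>
      (({F | F ∈ Systems n d H ∧ HasPoint K c F ℚ} : Set _).ncard : ℝ) /
      (({F | F ∈ Systems n d H ∧ LocallySoluble K c F} : Set _).ncard : ℝ)) atTop (𝓝 1) := by
  classical
  obtain ⟨e, he⟩ : ∃ e : Fin s → ℕ, d = fun j => e j + 2 :=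
    ⟨fun j => d j - 2, funext fun j => by have := hd j; dsimp only; omega⟩
  subst he
  choose f hf hfew hrho hne hpt using fun i => Pool.Agent.J4.H66.N1.norm_data1 (K i) (hc i)
  have hm : ∀ i, 1 ≤ finrank ℚ (K i) := fun i => finrank_pos
  -- points over fields
  have hk : ∀ (F : Fin s → MvPolynomial (Fin (n + 1)) ℤ) (k : Type) [Field k] [Algebra ℚ k],
      HasPoint K c F k ↔ PtSol f F k := by
    intro F k _ _
    constructor
    · rintro ⟨x, hx⟩
      choose ζ hζ using fun i => (hpt i k _).mp (hx i).2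
      exact ⟨x, ζ, fun i => ⟨hζ i, (hx i).1⟩⟩
    · rintro ⟨x, ζ, hx⟩
      exact ⟨x, fun i => ⟨(hx i).2, (hpt i k _).mpr ⟨ζ i, (hx i).1⟩⟩⟩
  have hrat : ∀ F : Fin s → MvPolynomial (Fin (n + 1)) ℤ, RatSol f F → PtSol f F ℚ := by
    rintro F ⟨x, hx⟩
    choose h0 ζ hζ using hx
    have e1 : ∀ {q : ℕ} (G : MvPolynomial (Fin q) ℤ) (y : Fin q → ℤ),
        MvPolynomial.aeval (fun j => (y j : ℚ)) G = ((MvPolynomial.eval y G : ℤ) : ℚ) := by
      intro q G y
      induction G using MvPolynomial.induction_on with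
      | C a => simp
      | add f h hf hh => rw [map_add, map_add, hf, hh, Int.cast_add]
      | mul_X f j hf =>
        rw [map_mul, map_mul, hf, MvPolynomial.aeval_X, MvPolynomial.eval_X, Int.cast_mul]
    refine ⟨fun j => (x j : ℚ), fun i j => (ζ i j : ℚ), fun i => ⟨?_, ?_⟩⟩
    · rw [e1, e1, hζ i]
    · rw [e1]
      exact_mod_cast h0 i
  have hcast : ∀ (F : Fin s → MvPolynomial (Fin (n + 1)) ℤ) (k : Type) [Field k] [Algebra ℚ k]
      [CharZero k], PtSol f F ℚ → PtSol f F k := by
    rintro F k _ _ _ ⟨x, ζ, hx⟩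
    refine ⟨fun j => (x j : k), fun i j => (ζ i j : k), fun i => ⟨?_, ?_⟩⟩
    · rw [Pool.Agent.R465.QV.aeval_ratCast, Pool.Agent.R465.QV.aeval_ratCast, (hx i).1]
    · rw [Pool.Agent.R465.QV.aeval_ratCast]
      exact_mod_cast (hx i).2
  have hloc : ∀ F : Fin s → MvPolynomial (Fin (n + 1)) ℤ, HasPoint K c F ℚ →
      LocallySoluble K c F := by
    intro F h
    have h1 := (hk F ℚ).mp h
    exact ⟨(hk F ℝ).mpr (hcast F ℝ h1), fun p _ => (hk F ℚ_[p]).mpr (hcast F ℚ_[p] h1)⟩
  obtain ⟨δ, hδ, H₁, hposi⟩ := Pool.Agent.J4.H66.N1.pos_main hn hs e hm f hf hfew hrho hne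
  have hcard : ∀ (H : ℕ) (P : (Fin s → MvPolynomial (Fin (n + 1)) ℤ) → Prop),
      ({F | F ∈ Systems n (fun j => e j + 2) H ∧ P F} : Set _).ncard =
      ((sysZ (Fin (n + 1)) e (H : ℝ)).filter P).card := fun H P =>
    Pool.Agent.Y487.C8.ncard_eq_filterS e H P
  have hcard0 : ∀ H : ℕ, (Systems n (fun j => e j + 2) H).ncard =
      (sysZ (Fin (n + 1)) e (H : ℝ)).card := by
    intro H
    have h3 := hcard H (fun _ => True)
    simp only [and_true, Finset.filter_true] at h3
    exact h3
  have hab : ∀ H : ℕ, (((sysZ (Fin (n + 1)) e (H : ℝ)).filter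
      (fun F => HasPoint K c F ℚ)).card : ℝ) ≤
      (((sysZ (Fin (n + 1)) e (H : ℝ)).filter (fun F => LocallySoluble K c F)).card : ℝ) :=
    fun H => card_filter_le' _ _ _ (fun F _ hF => hloc F hF)
  have hpt : ∀ᶠ H : ℕ in atTop, δ * ((sysZ (Fin (n + 1)) e (H : ℝ)).card : ℝ) ≤
      (((sysZ (Fin (n + 1)) e (H : ℝ)).filter (fun F => HasPoint K c F ℚ)).card : ℝ) := by
    filter_upwards [eventually_ge_atTop ⌈H₁⌉₊] with H hH
    refine (hposi (H : ℝ) ((Nat.le_ceil H₁).trans (by exact_mod_cast hH))).trans ?_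
    exact card_filter_le' _ _ _ (fun F _ hF => (hk F ℚ).mpr (hrat F hF))
  have hT : ∀ᶠ H : ℕ in atTop, (0 : ℝ) < ((sysZ (Fin (n + 1)) e (H : ℝ)).card : ℝ) := by
    filter_upwards with H
    rw [card_sysZ]
    push_cast
    apply Finset.prod_pos
    intro j _
    exact_mod_cast card_forms_pos (ι := Fin (n + 1)) (e j + 2) (Nat.cast_nonneg H)
  constructor
  · refine ⟨δ, hδ, ?_⟩
    filter_upwards [hpt] with H hH
    rw [hcard0, hcard]
    exact hH
  · simp only [hcard]
    refine ratio_one hδ hT hab hpt fun ε hε => ?_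
    obtain ⟨H₀, hH₀⟩ := Pool.Agent.J4.H66.N1.exc_main hn hs e hm f hf hfew hrho hε
    filter_upwards [eventually_ge_atTop ⌈H₀⌉₊] with H hH
    have h2 := hH₀ (H : ℝ) ((Nat.le_ceil H₀).trans (by exact_mod_cast hH))
    have h3 : (((sysZ (Fin (n + 1)) e (H : ℝ)).filter
        (fun F => LocallySoluble K c F)).card : ℝ) ≤
        (((sysZ (Fin (n + 1)) e (H : ℝ)).filter (fun F =>
          (∀ (p : ℕ) [Fact p.Prime], PtSol f F ℚ_[p]) ∧ PtSol f F ℝ ∧ ¬ RatSol f F)).card : ℝ) +
        (((sysZ (Fin (n + 1)) e (H : ℝ)).filter (fun F => HasPoint K c F ℚ)).card : ℝ) := by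
      refine card_filter_le_add' _ _ _ _ (fun F hF hloc => ?_)
      by_cases hp : RatSol f F
      · right
        exact (hk F ℚ).mpr (hrat F hp)
      · left
        exact ⟨fun p _ => (hk F ℚ_[p]).mp (hloc.2 p), (hk F ℝ).mp hloc.1, hp⟩
    linarith

end Pool.Agent.Results.MP_e426f4_ag.NormFibrations
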