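import Pool.Agent.J4.H66.NF.PosMain
import Pool.Agent.J4.H66.NF.NormData
import Pool.Agent.J4.H66.NF.Compo
import Pool.Agent.J4.H66.NF.GoodReps2
import Pool.Agent.J4.H66.NF.ExcGen3
import Pool.Agent.Y716.D.Main

/-!
# The Hasse principle for 100% of the systems `N_{K_i/ℚ}(z_i) = c_i ∏_j F_j(x) ^ a_ij` of all degrees

Let `K_1, …, K_t` be ANY number fields, `n_i = [K_i : ℚ]`, let `c_1, …, c_t` be non-zero rational numbers, let
`d_1, …, d_s ≥ 2` be ANY degrees, and let `a_ij ≥ 0` be integers such that for a set `T ⊆ {1, …, s}` of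
columns the map `ℤ ^ T → ∏ ℤ / n_i` with the matrix `(a_ij)` is surjective. Let `n ≥ min (|T| + 1) s + 2`.
For forms `F_1, …, F_s` of degrees `d_1, …, d_s` in `x_0, …, x_n` with integral coefficients let

  `U_F : N_{K_i/ℚ}(z_i) = c_i ∏_j F_j(x) ^ a_ij`, `i = 1, …, t`, all `F_j(x) ≠ 0`;

for example `N_{K/ℚ}(z) = c F_1(x) ⋯ F_s(x) ≠ 0` for any number field `K` and ANY NUMBER `s` of forms in
`n + 1 ≥ 5` variables (`T` consists of one element). `U_F` is smooth and fibred over an open subset of `ℙⁿ`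
(over its affine cone) in torsors under norm tori, with degenerate fibres over the `s` hypersurfaces
`F_j = 0`, which can be of general type; there is no relation between the `d_j`, the `n_i` and `n`.

For a positive proportion of the systems `F`, ordered by the maximum `H` of the absolute values of the
coefficients, `U_F` has a rational point, and among the `F` for which `U_F` has points over the real numbers
and over all the `p`-adic fields the proportion of those for which `U_F` has a rational point tends to `1`.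

Some condition on `n` and the matrix is needed: for a quadratic field `K` and `s ≥ n + 2` the system
`N_K(z_i) = c_i F_i(x) F_s(x)`, `i < s`, has the Brauer class `(F_s, K)`, which is ramified only where
all the `F_j` vanish, i.e. nowhere, and which should obstruct the Hasse principle for a positive
proportion of the `F` (there are no common zeros modulo `p` for all large `p`). Here `|T| ≥ s - 1`.

Proof (`Pool/Agent/J4/H66/NF`). Let `M` be a number field such that all `n_i` divide `m = [M : ℚ]` and all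
norms from `M` are norms from all `K_i`. By weak approximation for the torsor
`N_{K_i}(z_i) = c_i ∏_j y_j ^ a_ij` there are finitely many vectors `b ∈ ℤ ^ s` on the torsor such that the
local points of `U_F` at the primes `p ≤ w` and at infinity satisfy `F_j(x_v) ∈ b_j k_v ^ {* m}` for one of
them; as `(a_ij)` is surjective on `T` we can achieve that every prime `p > w` divides at most `|T| + 1`
of the `b_j`. If `F_j(x) = b_j N_{M/ℚ}(μ_j) ≠ 0` for all `j` then `U_F` has a rational point. For a prime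
`p > w` a second moment over the finite field shows that for all but `O(1 / p ^ 2)` of the `F` modulo `p`,
for all sets `Z` of at most `n - 2` elements and all units `b_j` there is a smooth common zero of the
`F_j`, `j ∈ Z`, at which the other `F_j` are in the classes `b_j 𝔽_p^{* m}`; so
`F_j(x) = b_j N_{M/ℚ}(μ_j)` is soluble over all `ℚ_p` which matter, for all but `ε` of the systems. The system
`F_j(x) = b_j N_{M/ℚ}(μ_j)` is treated by a second moment over `3 s`-parameter families of systems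
(`Pool/Agent/J4/H66/NF`).
-/

set_option autoImplicit false

namespace Pool.Agent.Results.MP_e426f4_ag.ProductsOfRandomForms

open Filter Topology TensorProduct Module NumberField

/-- The systems of `s` forms of degrees `d j` in `n + 1` variables whose coefficients are integers of
absolute value at most `H`. -/
def Systems (n : ℕ) {s : ℕ} (d : Fin s → ℕ) (H : ℕ) :
    Set (Fin s → MvPolynomial (Fin (n + 1)) ℤ) :=
  {F | ∀ j, (F j).IsHomogeneous (d j) ∧ ∀ a, |(F j).coeff a| ≤ (H : ℤ)}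

variable {n s t : ℕ} (K : Fin t → Type) [∀ i, Field (K i)] [∀ i, NumberField (K i)]

/-- The variety `N_{K_i/ℚ}(z_i) = c_i ∏_j F_j(x) ^ a_ij`, all `F_j(x) ≠ 0`, has a point over the field `k`;
the coordinates `z_i` form an element of `k ⊗ K_i`. -/
def HasPoint (c : Fin t → ℚ) (a : Fin t → Fin s → ℕ) (F : Fin s → MvPolynomial (Fin (n + 1)) ℤ)
    (k : Type) [Field k] [Algebra ℚ k] : Prop :=
  ∃ x : Fin (n + 1) → k, (∀ j, MvPolynomial.aeval x (F j) ≠ 0) ∧
    ∀ i, ∃ z : k ⊗[ℚ] (K i), Algebra.norm k z =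
      algebraMap ℚ k (c i) * ∏ j, (MvPolynomial.aeval x (F j)) ^ a i j

/-- The variety has points over the real numbers and over all the `p`-adic fields. -/
def LocallySoluble (c : Fin t → ℚ) (a : Fin t → Fin s → ℕ)
    (F : Fin s → MvPolynomial (Fin (n + 1)) ℤ) : Prop :=
  HasPoint K c a F ℝ ∧ ∀ (p : ℕ) [Fact p.Prime], HasPoint K c a F ℚ_[p]

theorem norm_cast' (S : Type) [Ring S] [Algebra ℚ S] [Module.Finite ℚ S] (k : Type) [Field k]
    [Algebra ℚ k] (r : ℚ) (h : ∃ z : ℚ ⊗[ℚ] S, Algebra.norm ℚ z = r) :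
    ∃ z : k ⊗[ℚ] S, Algebra.norm k z = algebraMap ℚ k r := by
  obtain ⟨P, hP⟩ := Pool.Agent.J4.H66.NT.exists_normPoly S
  obtain ⟨ζ, hζ⟩ := (hP ℚ r).mp h
  refine (hP k _).mpr ⟨fun a => algebraMap ℚ k (ζ a), ?_⟩
  rw [← hζ]
  exact MvPolynomial.aeval_algebraMap_apply (A := ℚ) k ζ P

theorem hasPoint_cast {c : Fin t → ℚ} {a : Fin t → Fin s → ℕ}
    {F : Fin s → MvPolynomial (Fin (n + 1)) ℤ} (k : Type) [Field k] [Algebra ℚ k] [CharZero k]
    (h : HasPoint K c a F ℚ) : HasPoint K c a F k := by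
  obtain ⟨x, hx, hz⟩ := h
  have hval : ∀ j, MvPolynomial.aeval (fun i => (x i : k)) (F j) =
      ((MvPolynomial.aeval x (F j) : ℚ) : k) := fun j =>
    Pool.Agent.R465.QV.aeval_ratCast (F j) k x
  refine ⟨fun i => (x i : k), fun j => ?_, fun i => ?_⟩
  · rw [hval]
    exact_mod_cast hx j
  · obtain ⟨z, hz'⟩ := norm_cast' (K i) k _ (hz i)
    refine ⟨z, hz'.trans ?_⟩
    rw [map_mul, map_prod]
    simp only [hval, map_pow, eq_ratCast, Rat.cast_id]

theorem locallySoluble_of {c : Fin t → ℚ} {a : Fin t → Fin s → ℕ}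
    {F : Fin s → MvPolynomial (Fin (n + 1)) ℤ} (h : HasPoint K c a F ℚ) :
    LocallySoluble K c a F :=
  ⟨hasPoint_cast K ℝ h, fun p _ => hasPoint_cast K ℚ_[p] h⟩

/-- norms of elements of the field are norms from the tensor product -/
theorem norm_of_field (S : Type) [Field S] [NumberField S] (z : S) :
    ∃ z' : ℚ ⊗[ℚ] S, Algebra.norm ℚ z' = Algebra.norm ℚ z :=
  ⟨(Algebra.TensorProduct.lid ℚ S).symm z, Algebra.norm_eq_of_algEquiv _ _⟩

theorem eval_cast {k : Type} [Field k] [CharZero k] {q : ℕ} (G : MvPolynomial (Fin q) ℤ)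
    (y : Fin q → ℤ) :
    MvPolynomial.aeval (fun j => (y j : k)) G = ((MvPolynomial.eval y G : ℤ) : k) := by
  induction G using MvPolynomial.induction_on with
  | C a => simp
  | add f h hf hh => rw [map_add, map_add, hf, hh, Int.cast_add]
  | mul_X f j hf =>
    rw [map_mul, map_mul, hf, MvPolynomial.aeval_X, MvPolynomial.eval_X, Int.cast_mul]

open Pool.Agent.J4.H66.NF Pool.Agent.J4.H66.NT in
/-- values in the class of `b` are `b` times norms -/
theorem ptSol_of_same {m : ℕ} {N : MvPolynomial (Fin m) ℤ} (hN : N.IsHomogeneous m)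
    {ζ₁ : Fin m → ℤ} (hone : MvPolynomial.eval ζ₁ N = 1) {b : Fin s → ℤ} (hb : ∀ j, b j ≠ 0)
    {F : Fin s → MvPolynomial (Fin (n + 1)) ℤ} {k : Type} [Field k] [CharZero k]
    {x : Fin (n + 1) → k} (h : ∀ j, Same m (vals F x j) (b j : k)) :
    PtSol (m := fun _ : Fin s => m) (fun j => MvPolynomial.C (b j) * N) F k := by
  choose u hu hu' using h
  refine ⟨x, fun j a => u j * (ζ₁ a : k), fun j => ⟨?_, ?_⟩⟩
  · rw [map_mul, LocP.aeval_hom hN, eval_cast, hone]
    have := hu' j
    unfold vals at this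
    rw [this]
    simp
    ring
  · have := hu' j
    unfold vals at this
    rw [this]
    exact mul_ne_zero (pow_ne_zero _ (hu j)) (by exact_mod_cast hb j)

open Pool.Agent.Y716.Q Pool.Agent.Y716.C Pool.Agent.R465.CV Pool.Agent.J4.H66.NF
  Pool.Agent.J4.H66.NT in
/-- **The Hasse principle for 100% of the systems of norm equations in products of random forms of all
degrees.** -/
theorem result (hs : 1 ≤ s) (d : Fin s → ℕ) (hd : ∀ j, 2 ≤ d j)
    (c : Fin t → ℚ) (hc : ∀ i, c i ≠ 0) (a : Fin t → Fin s → ℕ) (T : Finset (Fin s))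
    (hsurj : ∀ b : Fin t → ℤ, ∃ u : Fin s → ℤ, (∀ j, j ∉ T → u j = 0) ∧ ∀ i,
      (∑ j, (a i j : ℤ) * u j) ≡ b i [ZMOD (finrank ℚ (K i) : ℤ)])
    (hn : min (T.card + 1) s + 2 ≤ n) :
    (∃ c₀ : ℝ, 0 < c₀ ∧ ∀ᶠ H : ℕ in atTop, c₀ * ((Systems n d H).ncard : ℝ) ≤
      (({F | F ∈ Systems n d H ∧ HasPoint K c a F ℚ} : Set _).ncard : ℝ)) ∧
    Tendsto (fun H : ℕ =>
      (({F | F ∈ Systems n d H ∧ HasPoint K c a F ℚ} : Set _).ncard : ℝ) /
      (({F | F ∈ Systems n d H ∧ LocallySoluble K c a F} : Set _).ncard : ℝ)) atTop (𝓝 1) := by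
  classical
  obtain ⟨e, he⟩ : ∃ e : Fin s → ℕ, d = fun j => e j + 2 :=
    ⟨fun j => d j - 2, funext fun j => by have := hd j; dsimp only; omega⟩
  subst he
  obtain ⟨M, hM1, hM2, hM⟩ := exists_compositum K
  obtain ⟨ω, N, hNF, hNhom, -⟩ := exists_nf M
  obtain ⟨m, hm⟩ : ∃ m : ℕ, m = finrank ℚ M := ⟨_, rfl⟩
  have hm1 : 1 ≤ finrank ℚ M := finrank_pos
  have hfewb : ∀ b : ℤ, b ≠ 0 → FewReps (MvPolynomial.C b * N) := fun b hb => few_nf M ω hNF hb
  have hrhob : ∀ b : ℤ, b ≠ 0 → RhoBound (MvPolynomial.C b * N) := fun b hb => rho_nf M ω hNF hb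
  have hfew : FewReps N := by
    have := hfewb 1 one_ne_zero
    rwa [map_one, one_mul] at this
  have hrho : RhoBound N := by
    have := hrhob 1 one_ne_zero
    rwa [map_one, one_mul] at this
  obtain ⟨ζ₁, hζ₁⟩ : ∃ ζ : Fin (finrank ℚ M) → ℤ, MvPolynomial.eval ζ N = 1 := by
    refine ⟨fun j => ω.repr 1 j, ?_⟩
    rw [hNF, ω.sum_repr, map_one]
  have hhomb : ∀ b : ℤ, (MvPolynomial.C b * N).IsHomogeneous (finrank ℚ M) := fun b => by
    have := (MvPolynomial.isHomogeneous_C (Fin (finrank ℚ M)) b).mul hNhom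
    rwa [zero_add] at this
  -- from solutions to points
  have hpoint : ∀ (b : Fin s → ℤ), TN K c a ℚ (fun j => (b j : ℚ)) →
      ∀ F : Fin s → MvPolynomial (Fin (n + 1)) ℤ,
      RatSol (m := fun _ : Fin s => finrank ℚ M) (fun j => MvPolynomial.C (b j) * N) F →
      HasPoint K c a F ℚ := by
    rintro b ⟨hb0, hb⟩ F ⟨x, hx⟩
    choose hx0 ζ hζ using hx
    refine ⟨fun j => (x j : ℚ), fun j => ?_, fun i => ?_⟩
    · rw [eval_cast]
      exact_mod_cast hx0 j
    · obtain ⟨z, hz⟩ := hb i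
      obtain ⟨y, hy⟩ := (hM i).2 (∏ j, ((∑ l, ζ j l • ω l : 𝓞 M) : M) ^ a i j)
      obtain ⟨y', hy'⟩ := norm_of_field (K i) y
      refine ⟨z * y', ?_⟩
      rw [map_mul, hz, hy', hy, map_prod, mul_assoc]
      congr 1
      rw [← Finset.prod_mul_distrib]
      refine Finset.prod_congr rfl fun j _ => ?_
      rw [map_pow, ← mul_pow]
      congr 1
      rw [eval_cast, ← hζ j, map_mul, MvPolynomial.eval_C, hNF, Int.cast_mul]
      congr 1
      exact (Algebra.coe_norm_int (K := M) (∑ l, ζ j l • ω l)).symm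
  have hA1 : ∀ i, finrank ℚ (K i) ∣ finrank ℚ M := fun i => (hM i).1
  -- a rational point of the torsor
  choose u _ hu using fun i' : Fin t => hsurj (Pi.single i' 1)
  have hadj := adjust (K := K) (c := c) (A := a) hu hc (y' := fun _ => 1)
    (fun _ => one_ne_zero) (N := fun _ => 1) (fun _ => one_ne_zero) (fun i => ⟨1, map_one _⟩)
  obtain ⟨y₀, hy₀⟩ : ∃ y₀ : Fin s → ℚ, TN K c a ℚ y₀ := ⟨_, hadj⟩
  have hTNcast : ∀ (k : Type) [Field k] [Algebra ℚ k] [CharZero k],
      TN K c a k (fun j => (y₀ j : k)) := by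
    intro k _ _ _
    refine ⟨fun j => by
      have := hy₀.1 j
      dsimp only
      exact_mod_cast this, fun i => ?_⟩
    obtain ⟨z, hz⟩ := norm_cast' (K i) k _ (hy₀.2 i)
    refine ⟨z, hz.trans ?_⟩
    rw [map_mul, map_prod]
    simp only [map_pow, eq_ratCast, Rat.cast_id]
  -- positive proportion
  obtain ⟨δ, hδ, H₁, hposi⟩ : ∃ δ : ℝ, 0 < δ ∧ ∃ H₀ : ℝ, ∀ H : ℝ, H₀ ≤ H →
      δ * (sysZ (Fin (n + 1)) e H).card ≤
        (((sysZ (Fin (n + 1)) e H).filter fun F => HasPoint K c a F ℚ).card : ℝ) := by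
    obtain ⟨Λ, b, hb0, hbT, -, hbl⟩ := good_reps2 hm1 hA1 T hsurj hc 0
    obtain ⟨k, -, -⟩ := hbl (fun p _ => fun j => (y₀ j : ℚ_[p])) (fun j => (y₀ j : ℝ))
      (fun p _ _ => hTNcast ℚ_[p]) (hTNcast ℝ)
    obtain ⟨δ, hδ, H₀, h⟩ := pos_main (n := n) (by omega) hs e (m := fun _ : Fin s => finrank ℚ M)
      (fun _ => hm1) (fun j => MvPolynomial.C (b k j) * N) (fun j => hhomb _)
      (fun j => hfewb _ (hb0 k j)) (fun j => hrhob _ (hb0 k j)) (fun j => ⟨ζ₁, by
        rw [map_mul, MvPolynomial.eval_C, hζ₁, mul_one]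
        exact hb0 k j⟩)
    refine ⟨δ, hδ, H₀, fun H hH => (h H hH).trans ?_⟩
    exact card_filter_le' _ _ _ (fun F _ hF => hpoint (b k) (hbT k) F hF)
  have hcard : ∀ (H : ℕ) (P : (Fin s → MvPolynomial (Fin (n + 1)) ℤ) → Prop),
      ({F | F ∈ Systems n (fun j => e j + 2) H ∧ P F} : Set _).ncard =
      ((sysZ (Fin (n + 1)) e (H : ℝ)).filter P).card := fun H P =>
    Pool.Agent.Y487.C8.ncard_eq_filterS e H P
  have hcard0 : ∀ H : ℕ, (Systems n (fun j => e j + 2) H).ncard =
      (sysZ (Fin (n + 1)) e (H : ℝ)).card := by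
    intro H
    have h3 := hcard H (fun _ => True)
    simp only [and_true, Finset.filter_true] at h3
    exact h3
  have hab : ∀ H : ℕ, (((sysZ (Fin (n + 1)) e (H : ℝ)).filter
      (fun F => HasPoint K c a F ℚ)).card : ℝ) ≤
      (((sysZ (Fin (n + 1)) e (H : ℝ)).filter (fun F => LocallySoluble K c a F)).card : ℝ) :=
    fun H => card_filter_le' _ _ _ (fun F _ hF => locallySoluble_of K hF)
  have hpt : ∀ᶠ H : ℕ in atTop, δ * ((sysZ (Fin (n + 1)) e (H : ℝ)).card : ℝ) ≤
      (((sysZ (Fin (n + 1)) e (H : ℝ)).filter (fun F => HasPoint K c a F ℚ)).card : ℝ) := by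
    filter_upwards [eventually_ge_atTop ⌈H₁⌉₊] with H hH
    exact hposi (H : ℝ) ((Nat.le_ceil H₁).trans (by exact_mod_cast hH))
  have hT : ∀ᶠ H : ℕ in atTop, (0 : ℝ) < ((sysZ (Fin (n + 1)) e (H : ℝ)).card : ℝ) := by
    filter_upwards with H
    rw [card_sysZ]
    push_cast
    apply Finset.prod_pos
    intro j _
    exact_mod_cast card_forms_pos (ι := Fin (n + 1)) (e j + 2) (Nat.cast_nonneg H)
  constructor
  · refine ⟨δ, hδ, ?_⟩
    filter_upwards [hpt] with H hH
    rw [hcard0, hcard]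
    exact hH
  · simp only [hcard]
    refine ratio_one hδ hT hab hpt fun ε hε => ?_
    obtain ⟨w, hw⟩ := exc_gen3 (n := n) (by omega) hs e hm1 hNhom hfew hrho ⟨ζ₁, hζ₁⟩ hε
    obtain ⟨Λ, b, hb0, hbT, hbp, hbl⟩ := good_reps2 hm1 hA1 T hsurj hc w
    obtain ⟨H₀, hH₀⟩ := hw w le_rfl Λ b hb0 (fun k p hp hwp => by
      have h1 := hbp k p hp hwp
      have h2 := Finset.card_le_univ ((Finset.univ.filter fun j => (p : ℤ) ∣ b k j) :
        Finset (Fin s))
      rw [Fintype.card_fin] at h2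
      have h3 := le_min h1 h2
      omega)
    filter_upwards [eventually_ge_atTop ⌈H₀⌉₊] with H hH
    have h2 := hH₀ (H : ℝ) ((Nat.le_ceil H₀).trans (by exact_mod_cast hH))
    have h3 : (((sysZ (Fin (n + 1)) e (H : ℝ)).filter
        (fun F => LocallySoluble K c a F)).card : ℝ) ≤
        (((sysZ (Fin (n + 1)) e (H : ℝ)).filter (fun F =>
        (∃ k, (∀ (p : ℕ) [Fact p.Prime], p ≤ w →
            PtSol (m := fun _ : Fin s => finrank ℚ M) (fun j => MvPolynomial.C (b k j) * N) F ℚ_[p]) ∧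
          PtSol (m := fun _ : Fin s => finrank ℚ M) (fun j => MvPolynomial.C (b k j) * N) F ℝ) ∧
        ∀ k, ¬ RatSol (m := fun _ : Fin s => finrank ℚ M)
          (fun j => MvPolynomial.C (b k j) * N) F)).card : ℝ) +
        (((sysZ (Fin (n + 1)) e (H : ℝ)).filter (fun F => HasPoint K c a F ℚ)).card : ℝ) := by
      refine card_filter_le_add' _ _ _ _ (fun F hF hloc => ?_)
      by_cases hp : HasPoint K c a F ℚ
      · right; exact hp
      · left
        obtain ⟨⟨xR, hxR0, hxR⟩, hlocP⟩ := hloc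
        choose xP hxP0 hxP using hlocP
        obtain ⟨k, hkP, hkR⟩ := hbl (fun p _ => vals F (xP p)) (vals F xR)
          (fun p _ _ => ⟨hxP0 p, hxP p⟩) ⟨hxR0, hxR⟩
        refine ⟨⟨k, fun p _ hpw => ?_, ?_⟩, fun k' hk' => hp (hpoint (b k') (hbT k') F hk')⟩
        · exact ptSol_of_same hNhom hζ₁ (hb0 k) (hkP p hpw)
        · exact ptSol_of_same hNhom hζ₁ (hb0 k) hkR
    linarith

end Pool.Agent.Results.MP_e426f4_ag.ProductsOfRandomForms
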