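import Pool.Agent.Y716.D.Main
import Pool.Agent.J4.H66.NF.NearNF

/-!
# The fibration method for random pull-backs of all degrees

Let `Y` be ANY affine variety over `ℚ` (of any dimension, with any singularities and any Brauer group), let
`g = (g_1, …, g_s) : Y → 𝔸^s` be a morphism and let `M` be any number field. Let `F = (F_1, …, F_s)` be forms
of ANY degrees `d_j ≥ 2` in `x_0, …, x_n` with integral coefficients, `n ≥ s + 2`, and let `X_F` be the
pull-back of `Y` by `F : 𝔸^(n+1) → 𝔸^s` over the open torus,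

  `X_F : F_j(x) = g_j(y) ≠ 0`, `j = 1, …, s`, `y ∈ Y`.

We assume that for a rational point `y` of `Y` with `g_j(y) ≠ 0` and nonzero elements `μ_j` of `M` there is a
rational point `y'` with `g_j(y') = N_{M/ℚ}(μ_j) g_j(y)`. This holds

* if `Y = Y' × ∏ R_{M_j/ℚ} 𝔾_m`, `g_j = h_j(y') N_{M_j/ℚ}(z_j)` for ANY variety `Y'`, ANY functions
  `h_j` and ANY number fields `M_j` (`M` their compositum); then `X_F → Y'` is a family of fibrations
  `F_j(x) = h_j(y') N_{M_j/ℚ}(z_j)` in torsors under norm tori, with degenerate fibres over the divisors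
  `h_j = 0` and `F_j = 0`, and every `Y'` occurs as a base;
* if `Y` is given by equations `N_{K_i/ℚ}(z_i) = c_i(y') ∏_j y_j ^ a_ij`, `g_j = y_j`, for any functions
  `c_i` on a variety `Y'`.

The hypersurfaces `F_j = 0` can be of general type; there is no relation between the `d_j`, the degree of
`M` and `n`, and `Y` is arbitrary.

Theorem. For 100% of the `F`, ordered by height: `X_F` has a rational point if (and only if) it has points
`(x_v, y_v)` over `ℝ` and over all the `ℚ_p` such that `(y_v)_v` is in the closure of `Y(ℚ)` in the product of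
the spaces `Y(ℚ_v)`; and `X_F` has a rational point for a positive proportion of the `F`. So if the
Brauer-Manin obstruction is the only obstruction to weak approximation for `Y` (for a smooth proper model
of it), then for 100% of the `F` the Brauer-Manin obstruction is the only obstruction to the Hasse
principle for `X_F`, and if `Y` satisfies weak approximation then the Hasse principle holds for 100% of
the `X_F`.

Proof (`Pool/Agent/J4/H66/NF`). A rational point `y` of `Y` close to the `y_v` for all `v ≤ w` gives `b_j = g_j(y)`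
such that `F_j(x_v)` is in `b_j ℚ_v^{* m}`, `m = [M : ℚ]`, and there are only finitely many classes modulo
powers; for each of them we fix one `b`. If `F_j(x) = b_j N_{M/ℚ}(μ_j) ≠ 0` then `X_F` has a rational point. The
system `F_j(x) = b_j N_{M/ℚ}(μ_j)` is soluble for almost all `F` if it is soluble at the primes up to `w`,
at the real place and at the prime divisors of `b`: second moment over `3 s`-parameter families of systems.
For a prime `p > w` a second moment over the finite field shows that for all but `O(1 / p ^ 2)` of the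
`F` modulo `p` the system `F_j(x) = c_j` has smooth solutions for all `c_j` in a set of
representatives of `𝔽_p / 𝔽_p^{* m}`; here `n ≥ s + 2` is used.
-/

set_option autoImplicit false

namespace Pool.Agent.Results.MP_e426f4_ag.PullBacksOfAllDegrees

open Filter Topology

/-- The systems of `s` forms of degrees `d j` in `n + 1` variables whose coefficients are integers of
absolute value at most `H`. -/
def Systems (n : ℕ) {s : ℕ} (d : Fin s → ℕ) (H : ℕ) :
    Set (Fin s → MvPolynomial (Fin (n + 1)) ℤ) :=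
  {F | ∀ j, (F j).IsHomogeneous (d j) ∧ ∀ a, |(F j).coeff a| ≤ (H : ℤ)}

instance (p : Nat.Primes) : Fact (p : ℕ).Prime := ⟨p.2⟩

variable {n s q : ℕ}

/-- The points over the field `k` of the affine variety `Y` with the equations `f = 0`, `f ∈ E`. -/
def Points (E : Set (MvPolynomial (Fin q) ℤ)) (k : Type) [Field k] : Set (Fin q → k) :=
  {y | ∀ f ∈ E, MvPolynomial.aeval y f = 0}

/-- The families of a real point and of `p`-adic points of `Y` for all primes `p` which are in the closure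
of the set of the rational points, in the product topology. -/
def ClosureOfRationalPoints (E : Set (MvPolynomial (Fin q) ℤ)) :
    Set ((Fin q → ℝ) × ((p : Nat.Primes) → Fin q → ℚ_[(p : ℕ)])) :=
  closure ((fun y : Fin q → ℚ => (fun i => (y i : ℝ), fun (p : Nat.Primes) i => (y i : ℚ_[(p : ℕ)]))) ''
    Points E ℚ)

/-- `(x, y)` is a point over the field `k` of the pull-back `X_F : F_j(x) = g_j(y) ≠ 0`, `y ∈ Y`. -/
def IsPoint (E : Set (MvPolynomial (Fin q) ℤ)) (g : Fin s → MvPolynomial (Fin q) ℤ)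
    (F : Fin s → MvPolynomial (Fin (n + 1)) ℤ) {k : Type} [Field k] (x : Fin (n + 1) → k)
    (y : Fin q → k) : Prop :=
  y ∈ Points E k ∧ ∀ j, MvPolynomial.aeval x (F j) = MvPolynomial.aeval y (g j) ∧
    MvPolynomial.aeval y (g j) ≠ 0

/-- `X_F` has a rational point. -/
def HasRationalPoint (E : Set (MvPolynomial (Fin q) ℤ)) (g : Fin s → MvPolynomial (Fin q) ℤ)
    (F : Fin s → MvPolynomial (Fin (n + 1)) ℤ) : Prop :=
  ∃ (x : Fin (n + 1) → ℚ) (y : Fin q → ℚ), IsPoint E g F x y

/-- `X_F` has points over the real numbers and over all the `p`-adic fields which lie over a point of the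
closure of the set of the rational points of `Y`. -/
def LocallySoluble (E : Set (MvPolynomial (Fin q) ℤ)) (g : Fin s → MvPolynomial (Fin q) ℤ)
    (F : Fin s → MvPolynomial (Fin (n + 1)) ℤ) : Prop :=
  ∃ y ∈ ClosureOfRationalPoints E, (∃ x : Fin (n + 1) → ℝ, IsPoint E g F x y.1) ∧
    ∀ p : Nat.Primes, ∃ x : Fin (n + 1) → ℚ_[(p : ℕ)], IsPoint E g F x (y.2 p)

theorem locallySoluble_of {E : Set (MvPolynomial (Fin q) ℤ)} {g : Fin s → MvPolynomial (Fin q) ℤ}
    {F : Fin s → MvPolynomial (Fin (n + 1)) ℤ} (h : HasRationalPoint E g F) :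
    LocallySoluble E g F := by
  obtain ⟨x, y, hy, hxy⟩ := h
  have key : ∀ (k : Type) [Field k] [CharZero k],
      IsPoint E g F (fun i => (x i : k)) (fun i => (y i : k)) := by
    intro k _ _
    refine ⟨fun f hf => ?_, fun j => ⟨?_, ?_⟩⟩
    · rw [Pool.Agent.R465.QV.aeval_ratCast, hy f hf, Rat.cast_zero]
    · rw [Pool.Agent.R465.QV.aeval_ratCast, Pool.Agent.R465.QV.aeval_ratCast, (hxy j).1]
    · rw [Pool.Agent.R465.QV.aeval_ratCast]
      exact_mod_cast (hxy j).2
  exact ⟨_, subset_closure ⟨y, hy, rfl⟩, ⟨_, key ℝ⟩, fun p => ⟨_, key ℚ_[(p : ℕ)]⟩⟩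

/-- rational points close to a point of the closure, at finitely many places -/
theorem exists_close {E : Set (MvPolynomial (Fin q) ℤ)}
    {y : (Fin q → ℝ) × ((p : Nat.Primes) → Fin q → ℚ_[(p : ℕ)])}
    (hy : y ∈ ClosureOfRationalPoints E) (w : ℕ) {UR : Set (Fin q → ℝ)} (hUR : UR ∈ 𝓝 y.1)
    {UP : ∀ p : Nat.Primes, Set (Fin q → ℚ_[(p : ℕ)])} (hUP : ∀ p, UP p ∈ 𝓝 (y.2 p)) :
    ∃ z ∈ Points E ℚ, (fun i => (z i : ℝ)) ∈ UR ∧
      ∀ p : Nat.Primes, (p : ℕ) ≤ w → (fun i => (z i : ℚ_[(p : ℕ)])) ∈ UP p := by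
  have hfin : {p : Nat.Primes | (p : ℕ) ≤ w}.Finite :=
    Set.Finite.preimage (fun _ _ _ _ h => Subtype.ext h) (Set.finite_Iic w)
  have h1 : UR ×ˢ (Set.pi {p : Nat.Primes | (p : ℕ) ≤ w} UP) ∈ 𝓝 y :=
    prod_mem_nhds hUR (set_pi_mem_nhds hfin fun p _ => hUP p)
  obtain ⟨_, ⟨h2, h3⟩, z, hz, rfl⟩ := mem_closure_iff_nhds.mp hy _ h1
  exact ⟨z, hz, h2, fun p hp => h3 p hp⟩

theorem aeval_continuous {k : Type} [NormedField k] (f : MvPolynomial (Fin q) ℤ) :
    Continuous fun y : Fin q → k => MvPolynomial.aeval y f := by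
  have e1 : (fun y : Fin q → k => MvPolynomial.aeval y f) = fun y : Fin q → k =>
      MvPolynomial.eval y (MvPolynomial.map (Int.castRingHom k) f) := by
    funext y
    rw [MvPolynomial.eval_map, MvPolynomial.aeval_def]
    rfl
  rw [e1]
  exact MvPolynomial.continuous_eval _

open Pool.Agent.J4.H66.NT in
theorem nhds_same {k : Type} [NormedField k] {m : Fin s → ℕ} {g : Fin s → MvPolynomial (Fin q) ℤ}
    (hS : ∀ m : ℕ, 1 ≤ m → ∀ a : k, a ≠ 0 → ∀ᶠ x in 𝓝 a, Same m x a) (hm : ∀ j, 1 ≤ m j)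
    {y : Fin q → k} (hy : ∀ j, MvPolynomial.aeval y (g j) ≠ 0) :
    {z : Fin q → k | ∀ j, Same (m j) (MvPolynomial.aeval z (g j)) (MvPolynomial.aeval y (g j))} ∈
      𝓝 y := by
  have : ∀ᶠ z : Fin q → k in 𝓝 y, ∀ j,
      Same (m j) (MvPolynomial.aeval z (g j)) (MvPolynomial.aeval y (g j)) := by
    rw [eventually_all]
    intro j
    exact (aeval_continuous (g j)).continuousAt.eventually (hS (m j) (hm j) _ (hy j))
  exact this

open Pool.Agent.Y716.Q Pool.Agent.Y716.C Pool.Agent.R465.CV Pool.Agent.J4.H66.NT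
  Pool.Agent.J4.H66.NF Module in
/-- **The fibration method for random pull-backs of all degrees.** -/
theorem result (hn : s + 2 ≤ n) (hs : 1 ≤ s) (d : Fin s → ℕ) (hd : ∀ j, 2 ≤ d j)
    (E : Set (MvPolynomial (Fin q) ℤ)) (g : Fin s → MvPolynomial (Fin q) ℤ)
    (M : Type) [Field M] [NumberField M]
    (hE : ∃ y ∈ Points E ℚ, ∀ j, MvPolynomial.aeval y (g j) ≠ 0)
    (hscale : ∀ y ∈ Points E ℚ, (∀ j, MvPolynomial.aeval y (g j) ≠ 0) →
      ∀ μ : Fin s → M, (∀ j, μ j ≠ 0) → ∃ y' ∈ Points E ℚ,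
      ∀ j, MvPolynomial.aeval y' (g j) = Algebra.norm ℚ (μ j) * MvPolynomial.aeval y (g j)) :
    (∃ c₀ : ℝ, 0 < c₀ ∧ ∀ᶠ H : ℕ in atTop, c₀ * ((Systems n d H).ncard : ℝ) ≤
      (({F | F ∈ Systems n d H ∧ HasRationalPoint E g F} : Set _).ncard : ℝ)) ∧
    Tendsto (fun H : ℕ =>
      (({F | F ∈ Systems n d H ∧ HasRationalPoint E g F} : Set _).ncard : ℝ) /
      (({F | F ∈ Systems n d H ∧ LocallySoluble E g F} : Set _).ncard : ℝ))
      atTop (𝓝 1) := by
  classical
  obtain ⟨e, he⟩ : ∃ e : Fin s → ℕ, d = fun j => e j + 2 :=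
    ⟨fun j => d j - 2, funext fun j => by have := hd j; dsimp only; omega⟩
  subst he
  have hm1 : 1 ≤ finrank ℚ M := finrank_pos
  -- the condition on the values
  obtain ⟨TQ, hTQ⟩ : ∃ TQ : (Fin s → ℚ) → Prop, TQ = fun v => ∃ y ∈ Points E ℚ,
      ∀ j, v j = MvPolynomial.aeval y (g j) ∧ MvPolynomial.aeval y (g j) ≠ 0 := ⟨_, rfl⟩
  obtain ⟨hexc, hposi⟩ := near_norm hn hs e M TQ (by
      intro v hv _ μ hμ
      rw [hTQ] at hv ⊢
      obtain ⟨y, hy, hy'⟩ := hv
      obtain ⟨y', hy1, hy2⟩ := hscale y hy (fun j => (hy' j).2) μ hμ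
      refine ⟨y', hy1, fun j => ⟨?_, ?_⟩⟩
      · dsimp only
        rw [(hy' j).1, hy2 j]
      · rw [hy2 j]
        exact mul_ne_zero (Algebra.norm_ne_zero_iff.mpr (hμ j)) (hy' j).2)
  obtain ⟨δ, hδ, H₁, hposi⟩ := hposi (by
    obtain ⟨y, hy, hy'⟩ := hE
    refine ⟨fun j => MvPolynomial.aeval y (g j), ?_, hy'⟩
    rw [hTQ]
    exact ⟨y, hy, fun j => ⟨rfl, hy' j⟩⟩)
  have hpoint : ∀ F : Fin s → MvPolynomial (Fin (n + 1)) ℤ,
      (∃ x : Fin (n + 1) → ℚ, TQ (vals F x)) ↔ HasRationalPoint E g F := by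
    intro F
    rw [hTQ]
    constructor
    · rintro ⟨x, y, hy, hxy⟩
      exact ⟨x, y, hy, hxy⟩
    · rintro ⟨x, y, hy, hxy⟩
      exact ⟨x, y, hy, hxy⟩
  have hnear : ∀ F : Fin s → MvPolynomial (Fin (n + 1)) ℤ, LocallySoluble E g F →
      ∀ w, Near (fun _ => finrank ℚ M) TQ w F := by
    rintro F ⟨y, hy, ⟨xR, -, hxR⟩, hP⟩ w
    choose xP hxP using hP
    obtain ⟨z, hz, hzR, hzP⟩ := exists_close hy w
      (nhds_same (m := fun _ => finrank ℚ M) (g := g) (fun m hm a ha => same_nhds_real hm ha)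
        (fun _ => hm1) (fun j => (hxR j).2))
      (fun p => nhds_same (m := fun _ => finrank ℚ M) (g := g)
        (fun m hm a ha => same_nhds_padic (p : ℕ) hm ha)
        (fun _ => hm1) (fun j => ((hxP p).2 j).2))
    have hsR : ∀ j, Same (finrank ℚ M) ((MvPolynomial.aeval z (g j) : ℚ) : ℝ) (vals F xR j) := by
      intro j
      have h3 := hzR j
      rw [Pool.Agent.R465.QV.aeval_ratCast, ← (hxR j).1] at h3
      exact h3
    refine ⟨fun j => MvPolynomial.aeval z (g j), ?_, ?_, ?_, xR, hsR⟩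
    · rw [hTQ]
      refine ⟨z, hz, fun j => ⟨rfl, ?_⟩⟩
      have h3 := (hsR j).ne_zero (by
        unfold vals
        rw [(hxR j).1]
        exact (hxR j).2)
      exact_mod_cast h3
    · intro j
      have h3 := (hsR j).ne_zero (by
        unfold vals
        rw [(hxR j).1]
        exact (hxR j).2)
      exact_mod_cast h3
    · intro p hp hpw
      refine ⟨xP ⟨p, hp.out⟩, fun j => ?_⟩
      have h3 := hzP ⟨p, hp.out⟩ hpw j
      rw [Pool.Agent.R465.QV.aeval_ratCast, ← ((hxP ⟨p, hp.out⟩).2 j).1] at h3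
      exact h3
  have hcard : ∀ (H : ℕ) (P : (Fin s → MvPolynomial (Fin (n + 1)) ℤ) → Prop),
      ({F | F ∈ Systems n (fun j => e j + 2) H ∧ P F} : Set _).ncard =
      ((sysZ (Fin (n + 1)) e (H : ℝ)).filter P).card := fun H P =>
    Pool.Agent.Y487.C8.ncard_eq_filterS e H P
  have hcard0 : ∀ H : ℕ, (Systems n (fun j => e j + 2) H).ncard =
      (sysZ (Fin (n + 1)) e (H : ℝ)).card := by
    intro H
    have h3 := hcard H (fun _ => True)
    simp only [and_true, Finset.filter_true] at h3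
    exact h3
  have hab : ∀ H : ℕ, (((sysZ (Fin (n + 1)) e (H : ℝ)).filter
      (fun F => HasRationalPoint E g F)).card : ℝ) ≤
      (((sysZ (Fin (n + 1)) e (H : ℝ)).filter (fun F => LocallySoluble E g F)).card : ℝ) :=
    fun H => card_filter_le' _ _ _ (fun F _ hF => locallySoluble_of hF)
  have hpt : ∀ᶠ H : ℕ in atTop, δ * ((sysZ (Fin (n + 1)) e (H : ℝ)).card : ℝ) ≤
      (((sysZ (Fin (n + 1)) e (H : ℝ)).filter (fun F => HasRationalPoint E g F)).card : ℝ) := by
    filter_upwards [eventually_ge_atTop ⌈H₁⌉₊] with H hH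
    refine (hposi (H : ℝ) ((Nat.le_ceil H₁).trans (by exact_mod_cast hH))).trans ?_
    exact card_filter_le' _ _ _ (fun F _ hF => (hpoint F).mp hF)
  have hT : ∀ᶠ H : ℕ in atTop, (0 : ℝ) < ((sysZ (Fin (n + 1)) e (H : ℝ)).card : ℝ) := by
    filter_upwards with H
    rw [card_sysZ]
    push_cast
    apply Finset.prod_pos
    intro j _
    exact_mod_cast card_forms_pos (ι := Fin (n + 1)) (e j + 2) (Nat.cast_nonneg H)
  constructor
  · refine ⟨δ, hδ, ?_⟩
    filter_upwards [hpt] with H hH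
    rw [hcard0, hcard]
    exact hH
  · simp only [hcard]
    refine ratio_one hδ hT hab hpt fun ε hε => ?_
    obtain ⟨H₀, hH₀⟩ := hexc ε hε
    filter_upwards [eventually_ge_atTop ⌈H₀⌉₊] with H hH
    have h2 := hH₀ (H : ℝ) ((Nat.le_ceil H₀).trans (by exact_mod_cast hH))
    have h3 : (((sysZ (Fin (n + 1)) e (H : ℝ)).filter
        (fun F => LocallySoluble E g F)).card : ℝ) ≤
        (((sysZ (Fin (n + 1)) e (H : ℝ)).filter (fun F =>
          (∀ w, Near (fun _ => finrank ℚ M) TQ w F) ∧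
          ¬ ∃ x : Fin (n + 1) → ℚ, TQ (vals F x))).card : ℝ) +
        (((sysZ (Fin (n + 1)) e (H : ℝ)).filter (fun F => HasRationalPoint E g F)).card : ℝ) := by
      refine card_filter_le_add' _ _ _ _ (fun F hF hloc => ?_)
      by_cases hp : HasRationalPoint E g F
      · right; exact hp
      · left
        exact ⟨hnear F hloc, fun h => hp ((hpoint F).mp h)⟩
    linarith

end Pool.Agent.Results.MP_e426f4_ag.PullBacksOfAllDegrees
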